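import Pool.Agent.helper34.NTA.Spec

set_option autoImplicit false

namespace Pool.Agent.NTA

open Equiv

theorem ABS : ABS_stmt := by
  intro H _ _ s sg hG A pos yp σ hP τ hτ
  have hstep : ∀ e, hvr (τ e).1 = hvr e.1 * s (labr pos e.1) := by
    intro e
    obtain ⟨a, -, -, hx, -, hgo⟩ := hτ e
    have h2 := exit_x (τ e).2
    rw [hgo.x, hx] at h2
    exact (Sum.inl.inj h2).symm
  refine ⟨hstep, ?_⟩
  intro e h
  obtain ⟨a, -, -, hx, hi, hgo⟩ := hτ e
  have h1 := labr_pos hP (exit_x (τ e).2)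
  have h' : labr pos (τ e).1 = labr pos e.1 := h
  rw [hstep e, h', ← hi] at h1
  exact hgo.ne h1.symm

end Pool.Agent.NTA
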